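import Pool.Agent.Results.MP_0bb0c3_co.Flat
import Pool.Agent.Lib.MP_0bb0c3_co.EdgeMain

/-! The coefficients of the `q,t`-Catalan polynomial just below the flat range. -/

open Finset

namespace Pool.Agent.Results.MP_0bb0c3_co.EdgeJumps

open Pool.Agent.Results.MP_0bb0c3_co.Flat Pool.Agent.Lib.MP_0bb0c3_co

theorem Seqs_top (n : ℕ) : Seqs n (n.choose 2) 0 = {0} := by
  refine Set.eq_singleton_iff_unique_mem.mpr ⟨⟨⟨fun _ _ => rfl, fun _ _ _ => Nat.zero_le _⟩, ?_,
    by simp [area]⟩, fun S hS => funext fun i => ?_⟩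
  · have := Fintype.card_product_filter_lt (α := Fin n)
    rw [Fintype.card_fin] at this
    simpa [dinv] using this
  · exact sum_eq_zero_iff.mp hS.2.2 i (mem_univ i)

/-- In deficit `d ≤ M / 3` and for `d - (n - 5) ≤ j + 1 ≤ d`, the coefficient of `q ^ (j + 1)`
exceeds that of `q ^ j` by the number of partitions of `d` into exactly `j + 1` parts. -/
theorem result (n : ℕ) (hn : 9 ≤ n) (d : ℕ) (hd : d ≤ n.choose 2 / 3) (j : ℕ) (h1 : j + 1 ≤ d)
    (h2 : d + 5 ≤ j + 1 + n) :
    catCoeff n (j + 1) (n.choose 2 - d - (j + 1)) = catCoeff n j (n.choose 2 - d - j) +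
      Fintype.card {π : Nat.Partition d // π.parts.card = j + 1} := by
  obtain ⟨m, rfl⟩ : ∃ m, n = m + 1 := ⟨n - 1, by omega⟩
  have hM : (m + 1 : ℤ) * m = 2 * ((m + 1).choose 2 : ℕ) := by
    have := Nat.add_one_mul_choose_eq m 1
    rw [Nat.choose_one_right] at this
    rw [mul_comm 2]
    exact_mod_cast this
  have h0 := ncard_Seqs m ((m + 1).choose 2) 0
  rw [Seqs_top, Set.ncard_singleton] at h0
  generalize (m + 1).choose 2 = M at hd hM h0 ⊢
  obtain ⟨c, hc⟩ := Cat_edge (m := m) (by omega) hM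
  have c1 := hc (M + 1) 0 (by omega) (by omega) (by omega)
  rw [add_sub_cancel_right, zero_sub, Cat_neg, sub_zero, sub_self, sub_zero,
    show (PS (m - 1) 0 0).ncard = _ from PS_part (d := 0) (y := 0) (by omega)] at c1
  have c2 : Fintype.card {π : Nat.Partition 0 // π.parts.card = 0} = 1 := by decide
  rw [c2, Nat.cast_one, mul_one] at c1
  have h3 := hc (M - d - j) (j + 1) (by omega) (by omega) (by omega)
  rw [← c1, show (M : ℤ) + 1 - (M - d - j) - (j + 1) = d by ring,
    show (PS (m - 1) d (j + 1)).ncard = _ from PS_part (d := d) (y := j + 1) (by omega),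
    add_sub_cancel_right, Cat_symm, Cat_symm _ _ j, show (Cat (m + 1)).coeff (M, 0) = 1 from h0.symm,
    one_mul] at h3
  apply Nat.cast_injective (R := ℤ)
  show ((Seqs _ _ _).ncard : ℤ) = ((Seqs _ _ _).ncard + _ : ℕ)
  rw [Nat.cast_add, ncard_Seqs, ncard_Seqs,
    show ((M - d - (j + 1) : ℕ) : ℤ) = M - d - j - 1 by omega,
    show ((M - d - j : ℕ) : ℤ) = M - d - j by omega, Nat.cast_succ, ← h3, add_sub_cancel]

end Pool.Agent.Results.MP_0bb0c3_co.EdgeJumps
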