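import Pool.Agent.Lib.MP_0bb0c3_co.Main

/-! Flat middle coefficients of the `q,t`-Catalan polynomial. -/

open Finset

namespace Pool.Agent.Results.MP_0bb0c3_co.Flat

/-- Dyck sequences of length `n`: `S 0 = 0` and `S (i + 1) ≤ S i + 1`. -/
def IsDyck {n : ℕ} (S : Fin n → ℕ) : Prop :=
  (∀ i : Fin n, i.val = 0 → S i = 0) ∧ ∀ i j : Fin n, j.val = i.val + 1 → S j ≤ S i + 1

/-- The area statistic. -/
def area {n : ℕ} (S : Fin n → ℕ) : ℕ := ∑ i, S i

/-- The number of pairs `i < j` with `S i = S j` or `S i = S j + 1`. -/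
def dinv {n : ℕ} (S : Fin n → ℕ) : ℕ :=
  (Finset.univ.filter fun p : Fin n × Fin n =>
    p.1 < p.2 ∧ (S p.1 = S p.2 ∨ S p.1 = S p.2 + 1)).card

/-- The coefficient of `q ^ j * t ^ a` in the `q,t`-Catalan polynomial `C_n(q,t)`: the number of
Dyck sequences of length `n` with `dinv = j` and `area = a`. -/
noncomputable def catCoeff (n j a : ℕ) : ℕ :=
  {S : Fin n → ℕ | IsDyck S ∧ dinv S = j ∧ area S = a}.ncard

/-- The set counted by `catCoeff`. -/
def Seqs (n j a : ℕ) : Set (Fin n → ℕ) := {S | IsDyck S ∧ dinv S = j ∧ area S = a}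

open Pool.Agent.Lib.MP_0bb0c3_co

/-- Reversal of a sequence, extended by zero. -/
def rv {m : ℕ} (S : Fin (m + 1) → ℕ) : ℕ → ℤ := fun j =>
  if h : j < m + 1 then (S (Fin.rev ⟨j, h⟩) : ℤ) else 0

theorem rv_val {m : ℕ} (S : Fin (m + 1) → ℕ) (i : Fin (m + 1)) : rv S i = S i.rev :=
  dif_pos i.2

theorem rv_injective {m : ℕ} : Function.Injective (rv (m := m)) := fun S S' h => funext fun i => by
  have := congrFun h i.rev
  rw [rv_val, rv_val, Fin.rev_rev] at this
  exact Nat.cast_injective this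

theorem rv_mem {m : ℕ} {S : Fin (m + 1) → ℕ} : rv S ∈ DySet m ↔ IsDyck S := by
  constructor
  · rintro ⟨-, h2, h3⟩
    refine ⟨fun i hi => ?_, fun i j hj => ?_⟩
    · have := rv_val S i.rev
      rw [Fin.rev_rev, h2 _ (by rw [Fin.val_rev]; omega)] at this
      omega
    · have e1 := rv_val S i.rev
      have e2 := rv_val S j.rev
      have e3 := h3 j.rev
      have := j.2
      rw [show j.rev.val + 1 = i.rev.val by simp only [Fin.val_rev]; omega] at e3
      rw [Fin.rev_rev] at e1 e2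
      omega
  · rintro ⟨h1, h2⟩
    have h3 : ∀ j, m ≤ j → rv S j = 0 := by
      intro j hj
      simp only [rv]
      split_ifs with h
      · rw [h1 _ (by simp only [Fin.val_rev]; omega)]
        rfl
      · rfl
    have h4 : ∀ j, 0 ≤ rv S j := by
      intro j
      simp only [rv]
      split_ifs <;> omega
    refine ⟨h4, h3, fun j => ?_⟩
    by_cases h : j < m
    · have := h2 (Fin.rev ⟨j + 1, by omega⟩) (Fin.rev ⟨j, by omega⟩) (by
        simp only [Fin.val_rev]
        omega)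
      simp only [rv]
      rw [dif_pos (by omega), dif_pos (by omega)]
      omega
    · have := h4 (j + 1)
      rw [h3 j (by omega)]
      omega

theorem rv_surj {m : ℕ} {c : ℕ → ℤ} (hc : c ∈ DySet m) : ∃ S : Fin (m + 1) → ℕ, rv S = c := by
  refine ⟨fun i => (c i.rev).toNat, funext fun j => ?_⟩
  simp only [rv]
  split_ifs with h
  · rw [Fin.rev_rev, Int.toNat_of_nonneg (hc.1 _)]
  · exact (hc.2.1 j (by omega)).symm

theorem dg_rv {m : ℕ} {S : Fin (m + 1) → ℕ} (h : IsDyck S) : dg m (rv S) = area S := by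
  have h1 : dg m (rv S) = ∑ j ∈ range (m + 1), rv S j := by
    rw [sum_range_succ, (rv_mem.mpr h).2.1 m le_rfl, add_zero, dg_apply]
  rw [h1, area, ← Fin.sum_univ_eq_sum_range, Nat.cast_sum, ← Equiv.sum_comp Fin.revPerm]
  exact sum_congr rfl fun i _ => by rw [rv_val, Fin.revPerm_apply, Fin.rev_rev]

theorem dv_rv {m : ℕ} (S : Fin (m + 1) → ℕ) : dv (m + 1) (rv S) = dinv S := by
  have h1 : ∀ (f : ℕ → ℤ) (b : ℕ), b < m + 1 →
      ∑ a ∈ range b, f a = ∑ a ∈ range (m + 1), if a < b then f a else 0 := by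
    intro f b hb
    rw [← sum_filter]
    refine sum_congr ?_ fun _ _ => rfl
    ext a
    simp only [mem_range, mem_filter]
    omega
  rw [dv, pS, sum_congr rfl fun b hb => h1 _ b (mem_range.mp hb), dinv, card_filter,
    Fintype.sum_prod_type, ← Fin.sum_univ_eq_sum_range, ← Equiv.sum_comp Fin.revPerm]
  push_cast
  refine sum_congr rfl fun b _ => ?_
  rw [← Fin.sum_univ_eq_sum_range, ← Equiv.sum_comp Fin.revPerm]
  refine sum_congr rfl fun a _ => ?_
  simp only [Fin.revPerm_apply, rv_val, Fin.rev_rev, Fin.val_fin_lt, Fin.rev_lt_rev]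
  by_cases h : b < a
  · simp only [h, if_true, true_and]
    refine if_congr ?_ rfl rfl
    omega
  · simp only [h, if_false, false_and]

theorem image_Seqs (m j a : ℕ) : rv '' Seqs (m + 1) j a =
    ↑((Dy m).filter fun c => (dv (m + 1) c, dg m c) = ((j : ℤ), (a : ℤ))) := by
  ext c
  simp only [Set.mem_image, coe_filter, mem_Dy, Set.mem_ofPred_eq, Prod.mk.injEq, Seqs]
  constructor
  · rintro ⟨S, ⟨h1, h2, h3⟩, rfl⟩
    exact ⟨rv_mem.mpr h1, by rw [dv_rv, h2], by rw [dg_rv h1, h3]⟩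
  · rintro ⟨h1, h2, h3⟩
    obtain ⟨S, rfl⟩ := rv_surj h1
    have h4 := rv_mem.mp h1
    rw [dv_rv] at h2
    rw [dg_rv h4] at h3
    exact ⟨S, ⟨h4, Nat.cast_injective h2, Nat.cast_injective h3⟩, rfl⟩

theorem ncard_Seqs (m j a : ℕ) :
    ((Seqs (m + 1) j a).ncard : ℤ) = (Cat (m + 1)).coeff ((j : ℤ), (a : ℤ)) := by
  rw [← Set.ncard_image_of_injective _ rv_injective, image_Seqs, Set.ncard_coe_finset, Cat_eq,
    AddMonoidAlgebra.coeff_sum, Finsupp.finsetSum_apply, card_filter]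
  push_cast
  refine sum_congr rfl fun c _ => ?_
  rw [AddMonoidAlgebra.coeff_single, Finsupp.single_apply]

theorem result (n : ℕ) (hn : 1 ≤ n) (d : ℕ) (hd : d ≤ n.choose 2 / 3) (j j' : ℕ) (h1 : d ≤ j)
    (h2 : j ≤ n.choose 2 - 2 * d) (h3 : d ≤ j') (h4 : j' ≤ n.choose 2 - 2 * d) :
    catCoeff n j (n.choose 2 - d - j) = catCoeff n j' (n.choose 2 - d - j') := by
  obtain ⟨m, rfl⟩ : ∃ m, n = m + 1 := ⟨n - 1, by omega⟩
  have hM : (m + 1 : ℤ) * m = 2 * ((m + 1).choose 2 : ℕ) := by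
    have := Nat.add_one_mul_choose_eq m 1
    rw [Nat.choose_one_right] at this
    rw [mul_comm 2]
    exact_mod_cast this
  generalize (m + 1).choose 2 = M at hd hM h2 h4 ⊢
  have key : ∀ j, d ≤ j → j ≤ M - 2 * d →
      (Seqs (m + 1) j (M - d - j)).ncard = (Seqs (m + 1) d (M - d - d)).ncard := by
    intro j hj
    induction j, hj using Nat.le_induction with
    | base => exact fun _ => rfl
    | succ j hj ih =>
      intro h
      rw [← ih (by omega)]
      have h1 := Cat_step m (a := j + 1) (b := M - d - j) (by omega) (by omega)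
      apply Nat.cast_injective (R := ℤ)
      rw [ncard_Seqs, ncard_Seqs, show ((M - d - (j + 1) : ℕ) : ℤ) = M - d - j - 1 by omega,
        show ((M - d - j : ℕ) : ℤ) = M - d - j by omega, Nat.cast_succ, ← h1, add_sub_cancel_right]
  exact (key j h1 h2).trans (key j' h3 h4).symm

end Pool.Agent.Results.MP_0bb0c3_co.Flat
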